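import Mathlib

/-!
# Primitive tensors of maximal primitive degree

For all orders `m = k + 1 ≥ 2` and all dimensions `n ≥ 2` we determine the nonnegative primitive
tensors of primitive degree `(n - 1) ^ 2 + 1`: these are, up to isomorphism, the tensors whose
majorization matrix has the zero pattern of the Wielandt matrix `W_n`, and for which no entry leads
out of the cyclic intervals `arc n q s`, except along the arcs of `W_n`.
-/

set_option autoImplicit false

namespace Pool.Agent.Results.MP_9d720b_co.MaximalDegree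

open Finset

/-- Tensors of order `k + 1` and dimension `n`. -/
abbrev Tensor (k n : ℕ) := (Fin (k + 1) → Fin n) → ℝ

/-- `(A x)_i`, the sum of all `a_{i i_2 ... i_m} x_{i_2} ... x_{i_m}`. -/
noncomputable def app {k n : ℕ} (A : Tensor k n) (x : Fin n → ℝ) (i : Fin n) : ℝ :=
  ∑ p : Fin k → Fin n, A (Fin.cons i p) * ∏ l, x (p l)

/-- The map `T_A`: the `(m - 1)`-th root of `A x` in each coordinate. -/
noncomputable def T {k n : ℕ} (A : Tensor k n) (x : Fin n → ℝ) : Fin n → ℝ :=
  fun i => app A x i ^ (1 / (k : ℝ))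

/-- `T_A ^ r (x) > 0` for all `x ≥ 0`, `x ≠ 0`. -/
def Works {k n : ℕ} (A : Tensor k n) (r : ℕ) : Prop :=
  ∀ x : Fin n → ℝ, (∀ i, 0 ≤ x i) → x ≠ 0 → ∀ i, 0 < (T A)^[r] x i

/-- Primitive tensors. -/
def IsPrimitive {k n : ℕ} (A : Tensor k n) : Prop := ∃ r, 0 < r ∧ Works A r

/-- The primitive degree. -/
noncomputable def degree {k n : ℕ} (A : Tensor k n) : ℕ := sInf {r | 0 < r ∧ Works A r}

/-- The isomorphic tensor `a_{σ(i_1) ... σ(i_m)}`. -/
def relabel {k n : ℕ} (σ : Equiv.Perm (Fin n)) (A : Tensor k n) : Tensor k n :=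
  fun f => A (fun l => σ (f l))

/-- The zero pattern of the Wielandt matrix `W_n` (the rows and columns are numbered from `0` to
`n - 1`). -/
def Wielandt (n : ℕ) (i j : Fin n) : Prop :=
  (j : ℕ) = i + 1 ∨ ((i : ℕ) + 1 = n ∧ ((j : ℕ) = 0 ∨ (j : ℕ) = 1))

/-- The cyclic interval `n - 1 - s, n - s, ..., n - 1 - s + q` modulo `n`. -/
def arc (n q s : ℕ) : Set (Fin n) := {j | ∃ c ≤ q, (j : ℕ) = (n - 1 - s + c) % n}

/-! ### monotone maps on finite sets -/

section core

variable {N : ℕ} {F : Finset (Fin (N + 2)) → Finset (Fin (N + 2))}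

def P (F : Finset (Fin (N + 2)) → Finset (Fin (N + 2))) (r : ℕ) : Prop :=
  ∀ S : Finset (Fin (N + 2)), S.Nonempty → F^[r] S = univ

lemma F_univ (hF : Monotone F) {r : ℕ} (hr : 0 < r) {S : Finset (Fin (N + 2))}
    (h : F^[r] S = univ) : F univ = univ := by
  obtain ⟨r, rfl⟩ := Nat.exists_eq_succ_of_ne_zero hr.ne'
  rw [Function.iterate_succ_apply'] at h
  have h1 : F (F^[r] S) ⊆ F univ := hF (subset_univ _)
  rw [h] at h1
  exact univ_subset_iff.1 h1

lemma univ_later (hu : F univ = univ) {r r' : ℕ} (hrr : r ≤ r')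
    {S : Finset (Fin (N + 2))} (h : F^[r] S = univ) : F^[r'] S = univ := by
  obtain ⟨d, rfl⟩ := Nat.exists_eq_add_of_le hrr
  rw [Nat.add_comm r d, Function.iterate_add_apply, h]
  exact Function.iterate_fixed hu d

lemma P_univ (hF : Monotone F) {r : ℕ} (hr : 0 < r) (h : P F r) : F univ = univ :=
  F_univ hF hr (h univ univ_nonempty)

lemma P_later (hF : Monotone F) {r r' : ℕ} (hr : 0 < r) (hrr : r ≤ r') (h : P F r) : P F r' :=
  fun S hS => univ_later (P_univ hF hr h) hrr (h S hS)

lemma iter_comm {α : Type} (f : α → α) (a b : ℕ) (x : α) : f^[a] (f^[b] x) = f^[b] (f^[a] x) :=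
  (Function.Commute.refl f).iterate_iterate a b x

lemma iter_mono (hF : Monotone F) (r : ℕ) {S S' : Finset (Fin (N + 2))} (h : S ⊆ S') :
    F^[r] S ⊆ F^[r] S' := hF.iterate r h

lemma grow (hF : Monotone F) {r : ℕ} (hr : 0 < r) (h : P F r) {S : Finset (Fin (N + 2))}
    (hS : S.Nonempty) {l : ℕ} (hl : 0 < l) (hSl : S ⊆ F^[l] S) (k : ℕ) :
    F^[k * l] S = univ ∨ S.card + k ≤ (F^[k * l] S).card := by
  induction k with
  | zero => right; simp
  | succ k ih =>
    have h1 : F^[(k + 1) * l] S = F^[l] (F^[k * l] S) := by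
      rw [← Function.iterate_add_apply]; congr 1; ring
    have h2 : F^[k * l] S ⊆ F^[(k + 1) * l] S := by
      have h3 : F^[(k + 1) * l] S = F^[k * l] (F^[l] S) := by
        rw [← Function.iterate_add_apply]; congr 1; ring
      rw [h3]
      exact iter_mono hF _ hSl
    have hsub : ∀ k : ℕ, S ⊆ F^[k * l] S := by
      intro k
      induction k with
      | zero => simp
      | succ k ih' =>
        have h3 : F^[(k + 1) * l] S = F^[k * l] (F^[l] S) := by
          rw [← Function.iterate_add_apply]; congr 1; ring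
        rw [h3]
        exact ih'.trans (iter_mono hF _ hSl)
    rcases ih with ih | ih
    · left
      rw [ih] at h2
      exact univ_subset_iff.1 h2
    · by_cases h4 : F^[(k + 1) * l] S = F^[k * l] S
      · left
        rw [h4]
        have h5 : F^[l] (F^[k * l] S) = F^[k * l] S := h1.symm.trans h4
        have h6 : F^[r * l] (F^[k * l] S) = F^[k * l] S := by
          have : F^[r * l] = (F^[l])^[r] := by
            rw [← Function.iterate_mul, Nat.mul_comm]
          rw [this]
          exact Function.iterate_fixed h5 r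
        have h7 : F^[r * l] (F^[k * l] S) = univ :=
          P_later hF hr (Nat.le_mul_of_pos_right r hl) h _ (hS.mono (hsub k))
        rw [← h6, h7]
      · right
        have h5 := card_lt_card (lt_of_le_of_ne h2 (Ne.symm h4))
        omega

lemma grow' (hF : Monotone F) {r : ℕ} (hr : 0 < r) (h : P F r) {S : Finset (Fin (N + 2))}
    (hS : S.Nonempty) {l : ℕ} (hl : 0 < l) (hSl : S ⊆ F^[l] S) (k : ℕ)
    (hk : N + 2 ≤ S.card + k) : F^[k * l] S = univ := by
  rcases grow hF hr h hS hl hSl k with h1 | h1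
  · exact h1
  · apply eq_univ_of_card
    rw [Fintype.card_fin]
    have h2 := card_le_univ (F^[k * l] S)
    rw [Fintype.card_fin] at h2
    omega

lemma cyc (hF : Monotone F) {r : ℕ} (hr : 0 < r) (h : P F r) {u x : Fin (N + 2)} {t l : ℕ}
    (hl : 0 < l) (h1 : x ∈ F^[t] {u}) (h2 : x ∈ F^[l] {x}) :
    F^[t + (N + 1) * l] {u} = univ := by
  have h3 : F^[(N + 1) * l] {x} = univ := grow' hF hr h (singleton_nonempty x) hl
    (singleton_subset_iff.2 h2) (N + 1) (by rw [card_singleton]; omega)
  rw [Nat.add_comm t, Function.iterate_add_apply]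
  have h4 := iter_mono hF ((N + 1) * l) (singleton_subset_iff.2 h1)
  rw [h3] at h4
  exact univ_subset_iff.1 h4

lemma sel_iter (hF : Monotone F) {f : Fin (N + 2) → Fin (N + 2)} (hf : ∀ u, f u ∈ F {u})
    (i : ℕ) (u : Fin (N + 2)) : f^[i] u ∈ F^[i] {u} := by
  induction i generalizing u with
  | zero => simp
  | succ i ih =>
    rw [Function.iterate_succ_apply, Function.iterate_succ_apply]
    exact iter_mono hF i (singleton_subset_iff.2 (hf u)) (ih (f u))

lemma rho (f : Fin (N + 2) → Fin (N + 2)) (u : Fin (N + 2)) :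
    ∃ t l, 0 < l ∧ t + l ≤ N + 2 ∧ f^[t + l] u = f^[t] u ∧
      ∀ i j, i < t + l → j < t + l → f^[i] u = f^[j] u → i = j := by
  classical
  have hex : ∃ m, ∃ i, i < m ∧ f^[m] u = f^[i] u := by
    obtain ⟨a, b, hab, h⟩ := Finite.exists_ne_map_eq_of_infinite (fun i : ℕ => f^[i] u)
    rcases lt_or_gt_of_ne hab with h1 | h1
    · exact ⟨b, a, h1, h.symm⟩
    · exact ⟨a, b, h1, h⟩
  obtain ⟨i, hi, hfi⟩ := Nat.find_spec hex
  set m := Nat.find hex with hm
  have hinj : ∀ a b, a < m → b < m → f^[a] u = f^[b] u → a = b := by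
    intro a b ha hb hab
    by_contra hne
    rcases lt_or_gt_of_ne hne with h1 | h1
    · exact Nat.find_min hex hb ⟨a, h1, hab.symm⟩
    · exact Nat.find_min hex ha ⟨b, h1, hab⟩
  have hmn : m ≤ N + 2 := by
    have h1 : Function.Injective (fun a : Fin m => f^[(a : ℕ)] u) := fun a b hab =>
      Fin.ext (hinj a b a.2 b.2 hab)
    simpa using Fintype.card_le_of_injective _ h1
  refine ⟨i, m - i, by omega, by omega, ?_, ?_⟩
  · rw [Nat.add_sub_cancel' hi.le]
    exact hfi
  · intro a b ha hb hab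
    exact hinj a b (by omega) (by omega) hab

/-- a selection which is not injective -/
lemma exists_sel (h0 : F ∅ = ∅) {r : ℕ} (hr : 0 < r) (h : P F r) :
    ∃ f : Fin (N + 2) → Fin (N + 2), (∀ u, f u ∈ F {u}) ∧ ¬ Function.Injective f := by
  classical
  have hne : ∀ u, (F {u}).Nonempty := by
    intro u
    rw [nonempty_iff_ne_empty]
    intro hu
    obtain ⟨r, rfl⟩ := Nat.exists_eq_succ_of_ne_zero hr.ne'
    have h1 := h {u} (singleton_nonempty u)
    rw [Function.iterate_succ_apply, hu, Function.iterate_fixed h0 r] at h1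
    exact univ_nonempty.ne_empty h1.symm
  choose f hf using fun u => (hne u)
  by_cases hinj : Function.Injective f
  · have hsurj : Function.Surjective f := Finite.surjective_of_injective hinj
    have h1 : ∃ u, F {u} ≠ {f u} := by
      by_contra hcon
      push Not at hcon
      have h2 : ∀ (i : ℕ) (u : Fin (N + 2)), F^[i] {u} = {f^[i] u} := by
        intro i
        induction i with
        | zero => intro u; rfl
        | succ i ih =>
          intro u
          rw [Function.iterate_succ_apply, hcon u, ih, Function.iterate_succ_apply]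
      have h3 := h {0} (singleton_nonempty 0)
      rw [h2] at h3
      have h4 := congrArg Finset.card h3
      rw [card_singleton, card_univ, Fintype.card_fin] at h4
      omega
    obtain ⟨u, hu⟩ := h1
    have h2 : ∃ y ∈ F {u}, y ≠ f u := by
      by_contra hcon
      push Not at hcon
      apply hu
      ext y
      rw [mem_singleton]
      exact ⟨hcon y, fun hy => hy ▸ hf u⟩
    obtain ⟨y, hy, hyf⟩ := h2
    obtain ⟨z, hz⟩ := hsurj y
    have hzu : z ≠ u := by
      rintro rfl
      exact hyf hz.symm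
    refine ⟨Function.update f u y, ?_, ?_⟩
    · intro a
      by_cases ha : a = u
      · subst ha
        rw [Function.update_self]
        exact hy
      · rw [Function.update_of_ne ha]
        exact hf a
    · intro hin
      apply hzu
      apply hin
      rw [Function.update_self, Function.update_of_ne hzu, hz]
  · exact ⟨f, hf, hinj⟩

lemma rho_short {f : Fin (N + 2) → Fin (N + 2)} (hf : ¬ Function.Injective f) (u : Fin (N + 2)) :
    ∃ t l, 0 < l ∧ l ≤ N + 1 ∧ t + l ≤ N + 2 ∧ f^[t + l] u = f^[t] u ∧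
      ∀ i j, i < t + l → j < t + l → f^[i] u = f^[j] u → i = j := by
  obtain ⟨t, l, hl, htl, h1, h2⟩ := rho f u
  refine ⟨t, l, hl, ?_, htl, h1, h2⟩
  by_contra hcon
  have hl2 : l = N + 2 := by omega
  have ht : t = 0 := by omega
  subst hl2 ht
  rw [Nat.zero_add] at h1 h2
  apply hf
  apply Finite.injective_iff_surjective.2
  have h3 : Function.Injective (fun a : Fin (N + 2) => f^[(a : ℕ)] u) := fun a b hab =>
    Fin.ext (h2 a b a.2 b.2 hab)
  have h4 : Function.Surjective (fun a : Fin (N + 2) => f^[(a : ℕ)] u) :=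
    Finite.surjective_of_injective h3
  intro y
  obtain ⟨a, rfl⟩ := h4 y
  rcases Nat.eq_zero_or_pos (a : ℕ) with h5 | h5
  · refine ⟨f^[N + 1] u, ?_⟩
    show f (f^[N + 1] u) = f^[(a : ℕ)] u
    rw [← Function.iterate_succ_apply' f, h5]
    exact h1
  · refine ⟨f^[(a : ℕ) - 1] u, ?_⟩
    show f (f^[(a : ℕ) - 1] u) = f^[(a : ℕ)] u
    rw [← Function.iterate_succ_apply' f]
    congr 1
    omega

/-- the upper bound -/
lemma upper (hF : Monotone F) (h0 : F ∅ = ∅) {r : ℕ} (hr : 0 < r) (h : P F r) :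
    P F ((N + 1) ^ 2 + 1) := by
  obtain ⟨f, hf, hinj⟩ := exists_sel h0 hr h
  intro S hS
  obtain ⟨u, hu⟩ := hS
  obtain ⟨t, l, hl, hl1, htl, h1, -⟩ := rho_short hinj u
  have h2 : F^[t + (N + 1) * l] {u} = univ := by
    refine cyc hF hr h hl (sel_iter hF hf t u) ?_
    have h3 := sel_iter hF hf l (f^[t] u)
    rwa [← Function.iterate_add_apply, Nat.add_comm l t, h1] at h3
  have h3 : t + (N + 1) * l ≤ (N + 1) ^ 2 + 1 := by
    obtain ⟨d, hd⟩ := Nat.exists_eq_add_of_le hl1
    have h4 : (N + 1) ^ 2 = (N + 1) * l + (N + 1) * d := by rw [pow_two, ← Nat.mul_add, ← hd]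
    have h5 : d ≤ (N + 1) * d := Nat.le_mul_of_pos_left d (by omega)
    omega
  have h4 := univ_later (P_univ hF hr h) h3 h2
  have h5 := iter_mono hF ((N + 1) ^ 2 + 1) (singleton_subset_iff.2 hu)
  rw [h4] at h5
  exact univ_subset_iff.1 h5

/-! ### the intervals -/

/-- the interval in terms of inequalities -/
def J (N q s : ℕ) : Finset (Fin (N + 2)) :=
  univ.filter fun x => (N + 1 ≤ x + s ∧ x + s ≤ N + 1 + q) ∨ (x : ℕ) + s + 1 ≤ q

lemma mem_J {q s : ℕ} {x : Fin (N + 2)} :
    x ∈ J N q s ↔ (N + 1 ≤ x + s ∧ x + s ≤ N + 1 + q) ∨ (x : ℕ) + s + 1 ≤ q := by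
  simp [J]

lemma mem_arc {q s : ℕ} (hq : q ≤ N + 1) (hs : s ≤ N) {x : Fin (N + 2)} :
    x ∈ arc (N + 2) q s ↔ x ∈ J N q s := by
  rw [mem_J]
  have hx := x.2
  constructor
  · rintro ⟨c, hc, h⟩
    by_cases h1 : N + 2 - 1 - s + c < N + 2
    · rw [Nat.mod_eq_of_lt h1] at h
      omega
    · rw [Nat.mod_eq_sub_mod (by omega), Nat.mod_eq_of_lt (by omega)] at h
      omega
  · rintro (h | h)
    · refine ⟨x + s - (N + 1), by omega, ?_⟩
      rw [Nat.mod_eq_of_lt (by omega)]
      omega
    · refine ⟨x + s + 1, h, ?_⟩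
      rw [Nat.mod_eq_sub_mod (by omega), Nat.mod_eq_of_lt (by omega)]
      omega

lemma card_J {q s : ℕ} (hq : q ≤ N + 1) (hs : s ≤ N) : (J N q s).card = q + 1 := by
  have h1 : J N q s = (Finset.range (q + 1)).image (fun c =>
      (⟨(N + 1 - s + c) % (N + 2), Nat.mod_lt _ (by omega)⟩ : Fin (N + 2))) := by
    ext x
    rw [← mem_arc hq hs, mem_image]
    constructor
    · rintro ⟨c, hc, h⟩
      exact ⟨c, mem_range.2 (by omega), Fin.ext h.symm⟩
    · rintro ⟨c, hc, h⟩
      rw [mem_range] at hc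
      exact ⟨c, by omega, (congrArg Fin.val h).symm⟩
  rw [h1, card_image_of_injOn, card_range]
  intro a ha b hb hab
  rw [coe_range, Set.mem_Iio] at ha hb
  have h2 := congrArg Fin.val hab
  simp only at h2
  have h3 : (N + 1 - s + a) ≡ (N + 1 - s + b) [MOD (N + 2)] := h2
  have h4 : a ≡ b [MOD (N + 2)] := Nat.ModEq.add_left_cancel' _ h3
  exact Nat.ModEq.eq_of_lt_of_lt h4 (by omega) (by omega)

/-- the image under the Wielandt matrix -/
lemma step_in {q s : ℕ} (hq : q ≤ N + 1) (hs : s + 1 ≤ N) {i : Fin (N + 2)} :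
    i ∈ J N q (s + 1) ↔ ∃ j ∈ J N q s, Wielandt (N + 2) i j := by
  have hi := i.2
  simp only [mem_J, Wielandt]
  constructor
  · rintro (h | h)
    · by_cases h1 : (i : ℕ) + 1 < N + 2
      · exact ⟨⟨i + 1, h1⟩, by left; simp only; omega, by left; rfl⟩
      · refine ⟨0, ?_, ?_⟩
        · right; rw [Fin.val_zero]; omega
        · right; exact ⟨by omega, by left; rfl⟩
    · exact ⟨⟨i + 1, by omega⟩, by right; simp only; omega, by left; rfl⟩
  · rintro ⟨j, hj, h⟩
    have := j.2
    omega

lemma step_out {q : ℕ} (hq : q ≤ N) {i : Fin (N + 2)} :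
    i ∈ J N (q + 1) 0 ↔ ∃ j ∈ J N q N, Wielandt (N + 2) i j := by
  have hi := i.2
  simp only [mem_J, Wielandt]
  constructor
  · rintro (h | h)
    · refine ⟨⟨1, by omega⟩, ?_, ?_⟩
      · left; simp only; omega
      · right; exact ⟨by omega, by right; rfl⟩
    · exact ⟨⟨i + 1, by omega⟩, by left; simp only; omega, by left; rfl⟩
  · rintro ⟨j, hj, h⟩
    have := j.2
    omega

/-- the orbit contains the intervals -/
lemma orbit_sub (hF : Monotone F) {σ : Equiv.Perm (Fin (N + 2))}
    (hW : ∀ i j, σ i ∈ F {σ j} ↔ Wielandt (N + 2) i j) (q : ℕ) (hq : q ≤ N) :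
    ∀ s ≤ N, (J N q s).map σ.toEmbedding ⊆ F^[q * (N + 1) + s] {σ (Fin.last (N + 1))} := by
  have hstep : ∀ (S : Finset (Fin (N + 2))) (m : ℕ) (i j : Fin (N + 2)),
      S.map σ.toEmbedding ⊆ F^[m] {σ (Fin.last (N + 1))} → j ∈ S → Wielandt (N + 2) i j →
      σ i ∈ F^[m + 1] {σ (Fin.last (N + 1))} := by
    intro S m i j hS hj hij
    rw [Function.iterate_succ_apply']
    refine hF (singleton_subset_iff.2 (hS ?_)) ((hW i j).2 hij)
    exact mem_map_of_mem σ.toEmbedding hj
  induction q with
  | zero =>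
    intro s
    induction s with
    | zero =>
      intro _ x hx
      obtain ⟨y, hy, rfl⟩ := mem_map.1 hx
      rw [mem_J] at hy
      have : y = Fin.last (N + 1) := by
        apply Fin.ext
        rw [Fin.val_last]
        have := y.2
        omega
      subst this
      simp
    | succ s ih =>
      intro hs x hx
      obtain ⟨i, hi, rfl⟩ := mem_map.1 hx
      obtain ⟨j, hj, hij⟩ := (step_in (by omega) (by omega)).1 hi
      exact hstep _ _ i j (ih (by omega)) hj hij
  | succ q ihq =>
    intro s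
    induction s with
    | zero =>
      intro _ x hx
      obtain ⟨i, hi, rfl⟩ := mem_map.1 hx
      obtain ⟨j, hj, hij⟩ := (step_out (by omega)).1 hi
      have h1 := hstep _ _ i j (ihq (by omega) N le_rfl) hj hij
      have h2 : (q + 1) * (N + 1) + 0 = q * (N + 1) + N + 1 := by ring
      rw [h2]
      exact h1
    | succ s ih =>
      intro hs x hx
      obtain ⟨i, hi, rfl⟩ := mem_map.1 hx
      obtain ⟨j, hj, hij⟩ := (step_in (by omega) (by omega)).1 hi
      exact hstep _ _ i j (ih (by omega)) hj hij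

lemma forward (hF : Monotone F) (h0 : F ∅ = ∅) {r : ℕ} (hr : 0 < r) (h : P F r)
    {w : Fin (N + 2)} (hw : F^[(N + 1) ^ 2] {w} ≠ univ) :
    ∃ σ : Equiv.Perm (Fin (N + 2)), (∀ i j, σ i ∈ F {σ j} ↔ Wielandt (N + 2) i j) ∧
      ∀ q s, q ≤ N → s ≤ N → ∀ i, σ i ∈ F ((J N q s).map σ.toEmbedding) →
        ∃ j ∈ J N q s, Wielandt (N + 2) i j := by
  classical
  have hu := P_univ hF hr h
  have hnot : ∀ m, m ≤ (N + 1) ^ 2 → F^[m] {w} ≠ univ := fun m hm hm' =>
    hw (univ_later hu hm hm')
  obtain ⟨f, hf, hinj⟩ := exists_sel h0 hr h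
  obtain ⟨t, l, hl, hl1, htl, h1, h2⟩ := rho_short hinj w
  have hcyc : F^[t + (N + 1) * l] {w} = univ := by
    refine cyc hF hr h hl (sel_iter hF hf t w) ?_
    have h3 := sel_iter hF hf l (f^[t] w)
    rwa [← Function.iterate_add_apply, Nat.add_comm l t, h1] at h3
  have h3 : ¬ (t + (N + 1) * l ≤ (N + 1) ^ 2) := fun hle => hnot _ hle hcyc
  have hlN : l = N + 1 := by
    obtain ⟨d, hd⟩ := Nat.exists_eq_add_of_le hl1
    have h4 : (N + 1) ^ 2 = (N + 1) * l + (N + 1) * d := by rw [pow_two, ← Nat.mul_add, ← hd]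
    rcases Nat.eq_zero_or_pos d with h5 | h5
    · omega
    · rcases Nat.eq_zero_or_pos N with h6 | h6
      · omega
      · have h7 : d + 1 ≤ (N + 1) * d := by nlinarith
        omega
  subst hlN
  have ht : t = 1 := by
    have : (N + 1) ^ 2 = (N + 1) * (N + 1) := pow_two _
    omega
  subst ht
  have hidx : ∀ j : Fin (N + 2), (if (j : ℕ) = 0 then 0 else N + 2 - j) < 1 + (N + 1) := by
    intro j
    split_ifs <;> omega
  have hginj : Function.Injective
      (fun j : Fin (N + 2) => f^[if (j : ℕ) = 0 then 0 else N + 2 - j] w) := by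
    intro a b hab
    have h4 := h2 _ _ (hidx a) (hidx b) hab
    apply Fin.ext
    have ha := a.2
    have hb := b.2
    split_ifs at h4 <;> omega
  let σ : Equiv.Perm (Fin (N + 2)) :=
    Equiv.ofBijective _ (Finite.injective_iff_bijective.1 hginj)
  have hσ : ∀ j : Fin (N + 2), σ j = f^[if (j : ℕ) = 0 then 0 else N + 2 - j] w := fun j => rfl
  have hσ0 : ∀ j : Fin (N + 2), (j : ℕ) = 0 → σ j = w := by
    intro j hj
    rw [hσ, if_pos hj]
    rfl
  have hσ1 : ∀ j : Fin (N + 2), (j : ℕ) ≠ 0 → σ j = f^[N + 2 - j] w := by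
    intro j hj
    rw [hσ, if_neg hj]
  have hσeq : ∀ (i : Fin (N + 2)) (a : ℕ), a < N + 2 →
      (σ i = f^[a] w ↔ (if (i : ℕ) = 0 then 0 else N + 2 - (i : ℕ)) = a) := by
    intro i a ha
    constructor
    · intro h4
      exact h2 _ _ (hidx i) (by omega) h4
    · intro h4
      rw [hσ, h4]
  set v := f w with hv
  have hfv : ∀ a, f^[a + 1] w = f^[a] v := fun a => Function.iterate_succ_apply f a w
  have hvc : f^[N + 1] v = v := by
    rw [← hfv]
    have h4 := h1
    rwa [Nat.add_comm 1 (N + 1)] at h4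
  have hvF : v ∈ F {w} := hf w
  have hvv : ({v} : Finset (Fin (N + 2))) ⊆ F^[N + 1] {v} := by
    rw [singleton_subset_iff]
    have := sel_iter hF hf (N + 1) v
    rwa [hvc] at this
  have hlater : ∀ m, F^[m] {v} = univ → F^[m + 1] {w} = univ := by
    intro m hm
    rw [Function.iterate_succ_apply]
    have h4 := iter_mono hF m (singleton_subset_iff.2 hvF)
    rw [hm] at h4
    exact univ_subset_iff.1 h4
  have hsq : (N + 1) ^ 2 = N * (N + 1) + N + 1 := by ring
  have hsize : ∀ q s, q ≤ N → s ≤ N → (F^[q * (N + 1) + s] {v}).card ≤ q + 1 := by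
    intro q s hq hs
    by_contra hcon
    push Not at hcon
    have hne : (F^[q * (N + 1) + s] {v}).Nonempty := ⟨_, sel_iter hF hf _ v⟩
    have hsub : F^[q * (N + 1) + s] {v} ⊆ F^[N + 1] (F^[q * (N + 1) + s] {v}) := by
      rw [iter_comm F (N + 1)]
      exact iter_mono hF _ hvv
    have h4 := grow' hF hr h hne (Nat.succ_pos N) hsub (N - q) (by omega)
    rw [← Function.iterate_add_apply] at h4
    have h5 : (N - q) * (N + 1) + (q * (N + 1) + s) = N * (N + 1) + s := by
      rw [← Nat.add_assoc, ← Nat.add_mul, Nat.sub_add_cancel hq]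
    rw [Nat.succ_eq_add_one, h5] at h4
    exact hnot _ (by omega) (hlater _ h4)
  have hFw : F {w} = {v} := by
    refine eq_singleton_iff_unique_mem.2 ⟨hvF, fun z hz => ?_⟩
    by_contra hzv
    obtain ⟨j, rfl⟩ := σ.surjective z
    by_cases hj : (j : ℕ) = 0
    · rw [hσ0 j hj] at hz
      have h4 := cyc hF hr h (u := w) (x := w) (t := 0) (l := 1) Nat.one_pos (by simp) (by simpa using hz)
      exact hnot _ (by nlinarith) h4
    · have h5 : f^[N + 1] (σ j) = σ j := by
        rw [hσ1 j hj]
        have h6 : N + 2 - (j : ℕ) = N + 1 - j + 1 := by omega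
        rw [h6, hfv, iter_comm f (N + 1), hvc]
      have hsub : ({v, σ j} : Finset (Fin (N + 2))) ⊆ F^[N + 1] {v, σ j} := by
        intro x hx
        rw [mem_insert, mem_singleton] at hx
        rcases hx with rfl | rfl
        · exact iter_mono hF _ (by simp) (singleton_subset_iff.1 hvv)
        · have h6 := sel_iter hF hf (N + 1) (σ j)
          rw [h5] at h6
          exact iter_mono hF _ (by simp) h6
      have h4 := grow' hF hr h (insert_nonempty _ _) (Nat.succ_pos N) hsub N
        (by rw [card_pair (Ne.symm hzv)]; omega)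
      have h7 : F^[N * (N + 1) + 1] {w} = univ := by
        rw [Function.iterate_succ_apply]
        have h8 : F^[N * (N + 1)] {v, σ j} ⊆ F^[N * (N + 1)] (F {w}) := by
          apply iter_mono hF
          intro x hx
          rw [mem_insert, mem_singleton] at hx
          rcases hx with rfl | rfl
          · exact hvF
          · exact hz
        rw [Nat.succ_eq_add_one] at h4
        rw [h4] at h8
        exact univ_subset_iff.1 h8
      exact hnot _ (by omega) h7
  have hone : ∀ s ≤ N, F^[s] {v} = {f^[s] v} := by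
    intro s hs
    have h4 := hsize 0 s (Nat.zero_le _) hs
    rw [Nat.zero_mul, Nat.zero_add, Nat.zero_add] at h4
    exact eq_singleton_iff_unique_mem.2 ⟨sel_iter hF hf s v, fun x hx =>
      card_le_one.1 h4 x hx _ (sel_iter hF hf s v)⟩
  have hnext : ∀ s, s + 1 ≤ N → F {f^[s] v} = {f^[s + 1] v} := by
    intro s hs
    rw [← hone (s + 1) hs, Function.iterate_succ_apply', hone s (by omega)]
  have hlast : F {f^[N] v} = F^[N + 1] {v} := by
    rw [Function.iterate_succ_apply', hone N le_rfl]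
  have hy : ∀ y ∈ F {f^[N] v}, y = v ∨ y = w := by
    intro y hy
    obtain ⟨j, rfl⟩ := σ.surjective y
    by_cases hj0 : (j : ℕ) = 0
    · right
      exact hσ0 j hj0
    by_cases hjN : (j : ℕ) = N + 1
    · left
      rw [hσ1 j hj0, hjN]
      have : N + 2 - (N + 1) = 1 := by omega
      rw [this]
      rfl
    exfalso
    have hj2 := j.2
    have h4 : σ j ∈ F^[N + 2 - j] {w} := by
      rw [hσ1 j hj0]
      exact sel_iter hF hf _ w
    have h5 : f^[(j : ℕ) - 1] (σ j) = f^[N] v := by
      rw [hσ1 j hj0, ← Function.iterate_add_apply, ← hfv]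
      congr 1
      omega
    have h6 : f^[N] v ∈ F^[(j : ℕ) - 1] {σ j} := by
      rw [← h5]
      exact sel_iter hF hf _ _
    have h7 : σ j ∈ F^[(j : ℕ)] {σ j} := by
      have h8 : (j : ℕ) = (j : ℕ) - 1 + 1 := by omega
      rw [h8, Function.iterate_succ_apply']
      exact hF (singleton_subset_iff.2 h6) hy
    have h8 := cyc hF hr h (Nat.pos_of_ne_zero hj0) h4 h7
    refine hnot _ ?_ h8
    obtain ⟨e, he⟩ := Nat.exists_eq_add_of_le (show (j : ℕ) ≤ N by omega)
    have h9 : (N + 1) ^ 2 = (N + 1) * (j : ℕ) + (N + 1) * (e + 1) := by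
      rw [pow_two, ← Nat.mul_add]
      congr 1
      omega
    have h10 : 2 * (e + 1) ≤ (N + 1) * (e + 1) := Nat.mul_le_mul_right _ (by omega)
    omega
  have hwY : w ∈ F {f^[N] v} := by
    rw [hlast]
    rcases grow hF hr h (singleton_nonempty v) (Nat.succ_pos N) hvv 1 with h4 | h4
    · rw [Nat.one_mul, Nat.succ_eq_add_one] at h4
      rw [h4]
      exact mem_univ _
    · rw [Nat.one_mul, Nat.succ_eq_add_one, card_singleton] at h4
      obtain ⟨y, hy1, hy2⟩ := exists_mem_ne (show 1 < (F^[N + 1] {v}).card by omega) v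
      rcases hy y (hlast ▸ hy1) with h5 | h5
      · exact absurd h5 hy2
      · exact h5 ▸ hy1
  have hW : ∀ i j, σ i ∈ F {σ j} ↔ Wielandt (N + 2) i j := by
    intro i j
    have hi := i.2
    have hj := j.2
    by_cases hj0 : (j : ℕ) = 0
    · rw [hσ0 j hj0, hFw, mem_singleton, hv, show f w = f^[1] w from rfl,
        hσeq i 1 (by omega)]
      simp only [Wielandt]
      split_ifs <;> constructor <;> intro h5 <;> first | omega | exact absurd h5 (by decide)
    by_cases hj1 : (j : ℕ) = 1
    · have h4 : σ j = f^[N] v := by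
        rw [hσ1 j hj0, hj1, ← hfv]
        rfl
      rw [h4]
      have h5 : F {f^[N] v} = {v, w} := by
        ext y
        rw [mem_insert, mem_singleton]
        refine ⟨hy y, ?_⟩
        rintro (rfl | rfl)
        · rw [hlast]
          exact singleton_subset_iff.1 hvv
        · exact hwY
      rw [h5, mem_insert, mem_singleton]
      have h6 := hσeq i 1 (by omega)
      have h7 := hσeq i 0 (by omega)
      rw [show f^[1] w = v from rfl] at h6
      rw [show f^[0] w = w from rfl] at h7
      rw [h6, h7]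
      simp only [Wielandt]
      split_ifs <;> constructor <;> intro h8 <;> omega
    · have h4 : σ j = f^[N + 1 - j] v := by
        rw [hσ1 j hj0, ← hfv]
        congr 1
        omega
      rw [h4, hnext _ (by omega), mem_singleton, ← hfv, hσeq i _ (by omega)]
      simp only [Wielandt]
      split_ifs <;> constructor <;> intro h5 <;> first | omega | exact absurd h5 (by decide)
  refine ⟨σ, hW, ?_⟩
  have hlastσ : σ (Fin.last (N + 1)) = v := by
    rw [hσ1 _ (by rw [Fin.val_last]; omega), Fin.val_last]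
    have : N + 2 - (N + 1) = 1 := by omega
    rw [this]
    rfl
  have horb : ∀ q s, q ≤ N → s ≤ N →
      (J N q s).map σ.toEmbedding = F^[q * (N + 1) + s] {v} := by
    intro q s hq hs
    apply eq_of_subset_of_card_le
    · rw [← hlastσ]
      exact orbit_sub hF hW q hq s hs
    · rw [card_map, card_J (by omega) hs]
      exact hsize q s hq hs
  intro q s hq hs i hi
  rw [horb q s hq hs, ← Function.iterate_succ_apply' F] at hi
  by_cases hs1 : s + 1 ≤ N
  · rw [show (q * (N + 1) + s).succ = q * (N + 1) + (s + 1) from rfl, ← horb q (s + 1) hq hs1] at hi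
    rw [← step_in (by omega) hs1]
    obtain ⟨i', hi', h4⟩ := mem_map.1 hi
    rw [← σ.injective h4]
    exact hi'
  · have hsN : s = N := by omega
    subst hsN
    rw [← step_out hq]
    by_cases hq1 : q + 1 ≤ s
    · rw [show (q * (s + 1) + s).succ = (q + 1) * (s + 1) + 0 by
        rw [Nat.succ_eq_add_one]; ring, ← horb (q + 1) 0 hq1 (Nat.zero_le _)] at hi
      obtain ⟨i', hi', h4⟩ := mem_map.1 hi
      rw [← σ.injective h4]
      exact hi'
    · rw [mem_J]
      have := i.2
      omega

lemma backward (hF : Monotone F) (h0 : F ∅ = ∅) {σ : Equiv.Perm (Fin (N + 2))}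
    (hW : ∀ i j, σ i ∈ F {σ j} ↔ Wielandt (N + 2) i j)
    (hH : ∀ q s, q ≤ N → s ≤ N → ∀ i, σ i ∈ F ((J N q s).map σ.toEmbedding) →
        ∃ j ∈ J N q s, Wielandt (N + 2) i j) :
    P F ((N + 1) ^ 2 + 1) ∧ F^[(N + 1) ^ 2] {σ 0} ≠ univ := by
  classical
  have hsq : (N + 1) ^ 2 = N * (N + 1) + N + 1 := by ring
  have hstep : ∀ q s, q ≤ N → s ≤ N →
      F^[q * (N + 1) + s] {σ (Fin.last (N + 1))} ⊆ (J N q s).map σ.toEmbedding →
      ∀ i, σ i ∈ F^[q * (N + 1) + s + 1] {σ (Fin.last (N + 1))} →
        ∃ j ∈ J N q s, Wielandt (N + 2) i j := by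
    intro q s hq hs h1 i hi
    rw [Function.iterate_succ_apply'] at hi
    exact hH q s hq hs i (hF h1 hi)
  have horb : ∀ q, q ≤ N → ∀ s ≤ N,
      F^[q * (N + 1) + s] {σ (Fin.last (N + 1))} ⊆ (J N q s).map σ.toEmbedding := by
    intro q
    induction q with
    | zero =>
      intro _ s
      induction s with
      | zero =>
        intro _
        rw [Nat.zero_mul, Nat.zero_add, Function.iterate_zero, id, singleton_subset_iff]
        apply mem_map_of_mem
        rw [mem_J, Fin.val_last]
        omega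
      | succ s ih =>
        intro hs x hx
        obtain ⟨i, rfl⟩ := σ.surjective x
        exact mem_map_of_mem σ.toEmbedding ((step_in (by omega) (by omega)).2
          (hstep 0 s (by omega) (by omega) (ih (by omega)) i hx))
    | succ q ihq =>
      intro hq s
      induction s with
      | zero =>
        intro _ x hx
        obtain ⟨i, rfl⟩ := σ.surjective x
        have h2 : (q + 1) * (N + 1) + 0 = q * (N + 1) + N + 1 := by ring
        rw [h2] at hx
        exact mem_map_of_mem σ.toEmbedding ((step_out (by omega)).2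
          (hstep q N (by omega) le_rfl (ihq (by omega) N le_rfl) i hx))
      | succ s ih =>
        intro hs x hx
        obtain ⟨i, rfl⟩ := σ.surjective x
        exact mem_map_of_mem σ.toEmbedding ((step_in (by omega) (by omega)).2
          (hstep (q + 1) s (by omega) (by omega) (ih (by omega)) i hx))
  have hF0 : F {σ 0} = {σ (Fin.last (N + 1))} := by
    ext x
    obtain ⟨i, rfl⟩ := σ.surjective x
    rw [hW, mem_singleton, σ.injective.eq_iff, Fin.ext_iff, Fin.val_last]
    simp only [Wielandt, Fin.val_zero, true_or, and_true]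
    constructor <;> intro h5 <;> omega
  have hne : F^[(N + 1) ^ 2] {σ 0} ≠ univ := by
    intro h1
    rw [hsq, Function.iterate_succ_apply, hF0] at h1
    have h2 := card_le_card (horb N le_rfl N le_rfl)
    rw [h1, card_map, card_J (by omega) le_rfl, card_univ, Fintype.card_fin] at h2
    omega
  refine ⟨?_, hne⟩
  have hall : F^[(N + 1) ^ 2 + 1] {σ 0} = univ := by
    rw [Function.iterate_succ_apply, hF0, hsq, Function.iterate_succ_apply', eq_univ_iff_forall]
    intro x
    obtain ⟨i, rfl⟩ := σ.surjective x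
    obtain ⟨j, hj, hij⟩ := (step_out (le_refl N) (i := i)).1 (by
      rw [mem_J]
      have := i.2
      omega)
    refine hF (singleton_subset_iff.2 (orbit_sub hF hW N le_rfl N le_rfl ?_)) ((hW i j).2 hij)
    exact mem_map_of_mem σ.toEmbedding hj
  have hu : F univ = univ := F_univ hF (Nat.succ_pos _) hall
  have hreach : ∀ (a : ℕ) (j : Fin (N + 2)), (j : ℕ) = a → σ 0 ∈ F^[a] {σ j} := by
    intro a
    induction a with
    | zero =>
      intro j hj
      have : j = 0 := Fin.ext hj
      subst this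
      simp
    | succ a ih =>
      intro j hj
      have hj2 := j.2
      have h1 := ih ⟨a, by omega⟩ rfl
      rw [Function.iterate_succ_apply]
      refine iter_mono hF a (singleton_subset_iff.2 ?_) h1
      rw [hW]
      left
      exact hj
  have hP : P F ((N + 1) + ((N + 1) ^ 2 + 1)) := by
    intro S ⟨u, hu'⟩
    obtain ⟨j, rfl⟩ := σ.surjective u
    have hj2 := j.2
    have h1 := iter_mono hF ((N + 1) ^ 2 + 1) (singleton_subset_iff.2 (hreach j j rfl))
    rw [hall] at h1
    have h2 := univ_subset_iff.1 h1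
    rw [← Function.iterate_add_apply] at h2
    have h3 := univ_later (r' := (N + 1) + ((N + 1) ^ 2 + 1)) hu (by omega) h2
    have h4 := iter_mono hF ((N + 1) + ((N + 1) ^ 2 + 1)) (singleton_subset_iff.2 hu')
    rw [h3] at h4
    exact univ_subset_iff.1 h4
  exact upper hF h0 (by omega) hP

end core

/-! ### tensors -/

section tensors

variable {k n : ℕ}

open scoped Classical in
/-- the map of supports -/
noncomputable def Fm (A : Tensor k n) (S : Finset (Fin n)) : Finset (Fin n) :=
  univ.filter fun i => ∃ p : Fin k → Fin n, (∀ l, p l ∈ S) ∧ A (Fin.cons i p) ≠ 0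

open scoped Classical in
/-- the support -/
noncomputable def supp (x : Fin n → ℝ) : Finset (Fin n) := univ.filter fun i => x i ≠ 0

lemma mem_Fm {A : Tensor k n} {S : Finset (Fin n)} {i : Fin n} :
    i ∈ Fm A S ↔ ∃ p : Fin k → Fin n, (∀ l, p l ∈ S) ∧ A (Fin.cons i p) ≠ 0 := by
  simp [Fm]

lemma mem_supp {x : Fin n → ℝ} {i : Fin n} : i ∈ supp x ↔ x i ≠ 0 := by simp [supp]

lemma Fm_mono (A : Tensor k n) : Monotone (Fm A) := by
  intro S S' h i hi
  rw [mem_Fm] at hi ⊢
  obtain ⟨p, hp, h1⟩ := hi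
  exact ⟨p, fun l => h (hp l), h1⟩

lemma Fm_empty (hk : 1 ≤ k) (A : Tensor k n) : Fm A ∅ = ∅ := by
  ext i
  rw [mem_Fm]
  simp only [notMem_empty, iff_false]
  rintro ⟨p, hp, -⟩
  exact hp ⟨0, hk⟩

lemma app_nonneg {A : Tensor k n} (hA : ∀ f, 0 ≤ A f) {x : Fin n → ℝ} (hx : ∀ i, 0 ≤ x i)
    (i : Fin n) : 0 ≤ app A x i :=
  sum_nonneg fun _ _ => mul_nonneg (hA _) (prod_nonneg fun _ _ => hx _)

lemma T_nonneg {A : Tensor k n} (hA : ∀ f, 0 ≤ A f) {x : Fin n → ℝ} (hx : ∀ i, 0 ≤ x i)
    (i : Fin n) : 0 ≤ T A x i := Real.rpow_nonneg (app_nonneg hA hx i) _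

lemma supp_T (hk : 1 ≤ k) {A : Tensor k n} (hA : ∀ f, 0 ≤ A f) {x : Fin n → ℝ}
    (hx : ∀ i, 0 ≤ x i) : supp (T A x) = Fm A (supp x) := by
  ext i
  rw [mem_supp, mem_Fm]
  have hk0 : (1 / (k : ℝ)) ≠ 0 := by
    have : (0 : ℝ) < k := by exact_mod_cast hk
    positivity
  unfold T
  rw [Ne, Real.rpow_eq_zero (app_nonneg hA hx i) hk0]
  unfold app
  rw [sum_eq_zero_iff_of_nonneg (fun _ _ => mul_nonneg (hA _) (prod_nonneg fun _ _ => hx _))]
  push Not
  constructor
  · rintro ⟨p, -, hp⟩
    refine ⟨p, fun l => ?_, left_ne_zero_of_mul hp⟩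
    rw [mem_supp]
    exact prod_ne_zero_iff.1 (right_ne_zero_of_mul hp) l (mem_univ l)
  · rintro ⟨p, hp, h1⟩
    exact ⟨p, mem_univ _, mul_ne_zero h1 (prod_ne_zero_iff.2 fun l _ => mem_supp.1 (hp l))⟩

lemma iter_T (hk : 1 ≤ k) {A : Tensor k n} (hA : ∀ f, 0 ≤ A f) (r : ℕ) {x : Fin n → ℝ}
    (hx : ∀ i, 0 ≤ x i) :
    (∀ i, 0 ≤ (T A)^[r] x i) ∧ supp ((T A)^[r] x) = (Fm A)^[r] (supp x) := by
  induction r with
  | zero => exact ⟨hx, rfl⟩
  | succ r ih =>
    rw [Function.iterate_succ_apply', Function.iterate_succ_apply']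
    exact ⟨T_nonneg hA ih.1, by rw [supp_T hk hA ih.1, ih.2]⟩

lemma works_iff {N : ℕ} (hk : 1 ≤ k) {A : Tensor k (N + 2)} (hA : ∀ f, 0 ≤ A f) (r : ℕ) :
    Works A r ↔ P (Fm A) r := by
  classical
  constructor
  · intro h S ⟨u, hu⟩
    let x : Fin (N + 2) → ℝ := fun i => if i ∈ S then 1 else 0
    have hx : ∀ i, 0 ≤ x i := by
      intro i
      simp only [x]
      split_ifs <;> norm_num
    have hS : supp x = S := by
      ext i
      rw [mem_supp]
      simp only [x]
      split_ifs with h1 <;> simp [h1]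
    have hx0 : x ≠ 0 := by
      intro h1
      have h2 := congrFun h1 u
      simp only [x, if_pos hu, Pi.zero_apply] at h2
      norm_num at h2
    have h1 := (iter_T hk hA r hx).2
    rw [hS] at h1
    rw [← h1, eq_univ_iff_forall]
    intro i
    rw [mem_supp]
    exact (h x hx hx0 i).ne'
  · intro h x hx hx0 i
    obtain ⟨h1, h2⟩ := iter_T hk hA r hx
    have h3 : (supp x).Nonempty := by
      by_contra hcon
      rw [not_nonempty_iff_eq_empty] at hcon
      apply hx0
      funext j
      by_contra h4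
      have : j ∈ supp x := mem_supp.2 h4
      rw [hcon] at this
      exact notMem_empty _ this
    rw [h _ h3] at h2
    have h4 : i ∈ supp ((T A)^[r] x) := h2 ▸ mem_univ i
    exact lt_of_le_of_ne (h1 i) (Ne.symm (mem_supp.1 h4))

lemma relabel_cons (σ : Equiv.Perm (Fin n)) (A : Tensor k n) (i : Fin n) (p : Fin k → Fin n) :
    relabel σ A (Fin.cons i p) = A (Fin.cons (σ i) fun l => σ (p l)) := by
  unfold relabel
  congr 1
  funext l
  refine Fin.cases ?_ (fun l => ?_) l
  · rfl
  · rfl

lemma mem_single (σ : Equiv.Perm (Fin n)) (A : Tensor k n) (i j : Fin n) :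
    σ i ∈ Fm A {σ j} ↔ relabel σ A (Fin.cons i fun _ => j) ≠ 0 := by
  rw [mem_Fm, relabel_cons]
  constructor
  · rintro ⟨p, hp, h⟩
    have : p = fun _ => σ j := funext fun l => mem_singleton.1 (hp l)
    rwa [this] at h
  · intro h
    exact ⟨fun _ => σ j, fun _ => mem_singleton_self _, h⟩

lemma mem_many (σ : Equiv.Perm (Fin n)) (A : Tensor k n) (i : Fin n) (S : Finset (Fin n)) :
    σ i ∈ Fm A (S.map σ.toEmbedding) ↔
      ∃ p : Fin k → Fin n, (∀ l, p l ∈ S) ∧ relabel σ A (Fin.cons i p) ≠ 0 := by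
  rw [mem_Fm]
  constructor
  · rintro ⟨p, hp, h⟩
    refine ⟨fun l => σ.symm (p l), fun l => ?_, ?_⟩
    · obtain ⟨y, hy, h1⟩ := mem_map.1 (hp l)
      have h2 : p l = σ y := h1.symm
      show σ.symm (p l) ∈ S
      rw [h2, Equiv.symm_apply_apply]
      exact hy
    · rw [relabel_cons]
      simpa using h
  · rintro ⟨p, hp, h⟩
    refine ⟨fun l => σ (p l), fun l => mem_map_of_mem σ.toEmbedding (hp l), ?_⟩
    rwa [relabel_cons] at h

end tensors

/-- **Primitive tensors of maximal primitive degree.** Let `A` be a nonnegative tensor of order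
`m = k + 1 ≥ 2` and dimension `n ≥ 2`. Then `A` is primitive of primitive degree `(n - 1) ^ 2 + 1` if
and only if, after a permutation of the indices,
* the majorization matrix `(a_{i j ... j})` has the zero pattern of the Wielandt matrix `W_n`, and
* for all `1 ≤ q ≤ n - 2`, `0 ≤ s ≤ n - 2`, every entry `a_{i i_2 ... i_m}` such that `i_2, ..., i_m`
  are in the cyclic interval `arc n q s` (the `q + 1` indices starting at `n - 1 - s`, where the
  indices are numbered from `0` to `n - 1`), and such that there is no `j` in this interval with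
  `(W_n)_{i j} ≠ 0`, is equal to zero. -/
theorem result (k n : ℕ) (hk : 1 ≤ k) (hn : 2 ≤ n) (A : Tensor k n) (hA : ∀ f, 0 ≤ A f) :
    (IsPrimitive A ∧ degree A = (n - 1) ^ 2 + 1) ↔
    ∃ σ : Equiv.Perm (Fin n),
      (∀ i j, relabel σ A (Fin.cons i fun _ => j) ≠ 0 ↔ Wielandt n i j) ∧
      ∀ q s, 1 ≤ q → q ≤ n - 2 → s ≤ n - 2 → ∀ (i : Fin n) (p : Fin k → Fin n),
        (∀ l, p l ∈ arc n q s) → (∀ j ∈ arc n q s, ¬ Wielandt n i j) →
        relabel σ A (Fin.cons i p) = 0 := by
  obtain ⟨N, rfl⟩ : ∃ N, n = N + 2 := ⟨n - 2, by omega⟩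
  have hF := Fm_mono A
  have h0 := Fm_empty hk A
  have hN : N + 2 - 1 = N + 1 := rfl
  rw [hN]
  constructor
  · rintro ⟨⟨r, hr, hr'⟩, hdeg⟩
    have hP := (works_iff hk hA r).1 hr'
    have hex : ∃ w, (Fm A)^[(N + 1) ^ 2] {w} ≠ univ := by
      by_contra hcon
      push Not at hcon
      have h1 : Works A ((N + 1) ^ 2) := by
        rw [works_iff hk hA]
        rintro S ⟨u, hu⟩
        have h2 := iter_mono hF ((N + 1) ^ 2) (singleton_subset_iff.2 hu)
        rw [hcon u] at h2
        exact univ_subset_iff.1 h2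
      have h2 : degree A ≤ (N + 1) ^ 2 := Nat.sInf_le ⟨by positivity, h1⟩
      omega
    obtain ⟨w, hw⟩ := hex
    obtain ⟨σ, hW, hH⟩ := forward hF h0 hr hP hw
    refine ⟨σ, fun i j => by rw [← mem_single, hW], ?_⟩
    intro q s _ hq hs i p hp hi
    by_contra hcon
    obtain ⟨j, hj, hij⟩ := hH q s (by omega) (by omega) i ((mem_many σ A i _).2
      ⟨p, fun l => (mem_arc (by omega) (by omega)).1 (hp l), hcon⟩)
    exact hi j ((mem_arc (by omega) (by omega)).2 hj) hij
  · rintro ⟨σ, hW, hH⟩
    have hW' : ∀ i j, σ i ∈ Fm A {σ j} ↔ Wielandt (N + 2) i j := fun i j => by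
      rw [mem_single, hW]
    obtain ⟨h1, h2⟩ := backward hF h0 hW' (by
      intro q s hq hs i hi
      by_contra hcon
      push Not at hcon
      obtain ⟨p, hp, h1⟩ := (mem_many σ A i _).1 hi
      rcases Nat.eq_zero_or_pos q with h3 | h3
      · -- the interval has one element
        subst h3
        have h4 := card_J (N := N) (q := 0) (s := s) (by omega) hs
        obtain ⟨j, hj⟩ := card_eq_one.1 h4
        have h5 : p = fun _ => j := funext fun l => by
          have := hp l
          rw [hj] at this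
          exact mem_singleton.1 this
        rw [h5, hW] at h1
        exact hcon j (hj ▸ mem_singleton_self j) h1
      · exact h1 (hH q s h3 (by omega) (by omega) i p
          (fun l => (mem_arc (by omega) hs).2 (hp l))
          fun j hj => hcon j ((mem_arc (by omega) hs).1 hj)))
    have h3 : Works A ((N + 1) ^ 2 + 1) := (works_iff hk hA _).2 h1
    refine ⟨⟨_, Nat.succ_pos _, h3⟩, ?_⟩
    apply le_antisymm
    · exact Nat.sInf_le ⟨Nat.succ_pos _, h3⟩
    · by_contra hcon
      push Not at hcon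
      have h4 : degree A ∈ {r | 0 < r ∧ Works A r} := Nat.sInf_mem ⟨_, Nat.succ_pos _, h3⟩
      obtain ⟨h5, h6⟩ := h4
      have h7 := P_later hF h5 (by omega : degree A ≤ (N + 1) ^ 2) ((works_iff hk hA _).1 h6)
      exact h2 (h7 _ (singleton_nonempty _))

end Pool.Agent.Results.MP_9d720b_co.MaximalDegree
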